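import Pool.Agent.H11.SAE.WordPath

/-!
# Tuples of words in symmetric groups (MP_45b854_al): definitions for the entropy argument
-/

set_option autoImplicit false

open Finset Equiv
open scoped Classical

namespace Pool.Agent.H4.SE

open Pool.Agent.H11.SAE (lp act verts)

/-! ## Entropy of a function on a finite set with the uniform distribution -/

/-- number of points with the same value -/
noncomputable def fib {Ω α : Type} [Fintype Ω] (f : Ω → α) (x : Ω) : ℕ :=
  (univ.filter fun y => f y = f x).card

/-- entropy of `f`, when `Ω` carries the uniform distribution -/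
noncomputable def ent {Ω α : Type} [Fintype Ω] (f : Ω → α) : ℝ :=
  (∑ x, (Real.log (Fintype.card Ω) - Real.log (fib f x))) / Fintype.card Ω

/-! ## Partitions of finite sets -/

/-- `P` is a partition of `A` -/
structure IsPart {α : Type} (A : Finset α) (P : Finset (Finset α)) : Prop where
  ne : ∅ ∉ P
  dis : ∀ X ∈ P, ∀ Y ∈ P, X ≠ Y → Disjoint X Y
  un : ∀ a, a ∈ A ↔ ∃ X ∈ P, a ∈ X

/-- value of a partition -/
noncomputable def vl {α : Type} (ρ : Finset α → ℝ) (l : ℝ) (P : Finset (Finset α)) : ℝ :=
  ∑ X ∈ P, (ρ X - l)

/-- `P` is a partition of `A` of minimal value -/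
structure IsOpt {α : Type} (ρ : Finset α → ℝ) (l : ℝ) (A : Finset α) (P : Finset (Finset α)) :
    Prop where
  pt : IsPart A P
  mn : ∀ P', IsPart A P' → vl ρ l P ≤ vl ρ l P'

/-- `P` is a partition of `A` of minimal value and, among these, with the fewest blocks -/
structure IsOpt1 {α : Type} (ρ : Finset α → ℝ) (l : ℝ) (A : Finset α) (P : Finset (Finset α)) :
    Prop where
  op : IsOpt ρ l A P
  cd : ∀ P', IsPart A P' → vl ρ l P' ≤ vl ρ l P → P.card ≤ P'.card

/-! ## Words

A word is a list of letters `(i, true)` (the letter `x_i`) or `(i, false)` (its inverse), in the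
order in which the letters are applied. -/

variable {r d : ℕ}

/-- the permutation given by the first `k` letters of the word `T` -/
def pp {β : Type} (σ : Fin r → Perm β) (T : List (Fin r × Bool)) : ℕ → Perm β
  | 0 => 1
  | k + 1 => (match T[k]? with
      | some x => lp σ x
      | none => 1) * pp σ T k

variable (T : Fin d → List (Fin r × Bool))

/-- the word map -/
def W {β : Type} (σ : Fin r → Perm β) : Fin d → Perm β := fun j => pp σ (T j) (T j).length

/-- all positions at the point `v` -/
def pat {β : Type} (σ : Fin r → Perm β) (v : β) : Fin d → ℕ → β :=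
  fun j k => (pp σ (T j) k)⁻¹ v

/-- the vertices of the wedge of the subdivided circles: `none` is the base point -/
noncomputable def VV : Finset (Option (Fin d × ℕ)) :=
  insert none ((((univ : Finset (Fin d)) ×ˢ range (∑ j, (T j).length)).filter
    fun p => 0 < p.2 ∧ p.2 < (T p.1).length).image some)

/-- the edges of the wedge: `(j, k)` is the `k`-th letter of the `j`-th word -/
noncomputable def EE : Finset (Fin d × ℕ) :=
  ((univ : Finset (Fin d)) ×ˢ range (∑ j, (T j).length)).filter fun p => p.2 < (T p.1).length

/-- the vertex after `k` letters of the `j`-th word -/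
noncomputable def vt (e : Fin d × ℕ) : Option (Fin d × ℕ) :=
  if e.2 = 0 ∨ e.2 = (T e.1).length then none else some e

/-- the label of an edge -/
def lb (e : Fin d × ℕ) : Option (Fin r) := ((T e.1)[e.2]?).map Prod.fst

/-- the sign of an edge -/
def sg (e : Fin d × ℕ) : Bool := ((T e.1)[e.2]?).elim true Prod.snd

/-- the tail of an edge -/
noncomputable def tl (e : Fin d × ℕ) : Option (Fin d × ℕ) :=
  if sg T e = true then vt T e else vt T (e.1, e.2 + 1)

/-- the head of an edge -/
noncomputable def hd (e : Fin d × ℕ) : Option (Fin d × ℕ) :=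
  if sg T e = true then vt T (e.1, e.2 + 1) else vt T e

/-- the edges with label `i` -/
noncomputable def Ei (i : Fin r) : Finset (Fin d × ℕ) := (EE T).filter fun e => lb T e = some i

/-- number of letters read up to the tail of the edge -/
def rt (e : Fin d × ℕ) : ℕ := if sg T e = true then e.2 else e.2 + 1

/-- number of letters read up to the head of the edge -/
def rh (e : Fin d × ℕ) : ℕ := if sg T e = true then e.2 + 1 else e.2

/-- the position of a vertex at the point `v` -/
def pos {β : Type} (σ : Fin r → Perm β) (v : β) : Option (Fin d × ℕ) → β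
  | none => v
  | some e => (pp σ (T e.1) e.2)⁻¹ v

/-! ## The random variables -/

/-- the sample space: `r` permutations and `k` points (pins) -/
abbrev Om (r k : ℕ) (β : Type) : Type := (Fin r → Perm β) × (Fin k → β)

/-- the values of the words and all positions at the pins -/
def WQ {k : ℕ} {β : Type} (ω : Om r k β) : (Fin d → Perm β) × (Fin k → Fin d → ℕ → β) :=
  (W T ω.1, fun m => pat T ω.1 (ω.2 m))

/-- entropy of the values of the words and of the positions at `k` pins -/
noncomputable def AA (k : ℕ) (β : Type) [Fintype β] [DecidableEq β] : ℝ :=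
  ent (fun ω : Om r k β => WQ T ω)

/-- conditional entropy of the positions of the vertices in `A` at a random point -/
noncomputable def rho (k : ℕ) (β : Type) [Fintype β] [DecidableEq β]
    (A : Finset (Option (Fin d × ℕ))) : ℝ :=
  ent (fun x : Om r k β × β => (WQ T x.1, fun a : A => pos T x.1.1 x.2 a.1)) - AA T k β

/-- sum of the conditional entropies of the stars of the edges -/
noncomputable def SS (k : ℕ) (β : Type) [Fintype β] [DecidableEq β] : ℝ :=
  ∑ i, rho T k β ((Ei T i).image (tl T))

/-! ## Insertion of a point -/

/-- the sample space for the coupling: `o i` is the tail of the edge with label `i` into which the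
new point is inserted (or `none`), `c m` are the pins in the larger system -/
abbrev Oh (r k : ℕ) (β : Type) : Type :=
  (Fin r → Perm β) × (Fin r → Option β × β) × (Fin k → Option β × β)

/-- insertion of the new point `none` into the edges `o i → σ i (o i)` -/
def ins {β : Type} [DecidableEq β] (σ : Fin r → Perm β) (o : Fin r → Option β) :
    Fin r → Perm (Option β) :=
  fun i => optionCongr (σ i) * swap none (o i)

/-- the larger system -/
def big {k : ℕ} {β : Type} [DecidableEq β] (ω : Oh r k β) : Om r k (Option β) :=
  (ins ω.1 fun i => (ω.2.1 i).1, fun m => (ω.2.2 m).1)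

/-- the smaller system -/
def sml {k : ℕ} {β : Type} (ω : Oh r k β) : Om r k β :=
  (ω.1, fun m => (ω.2.2 m).1.getD (ω.2.2 m).2)

/-- the tails of the edges with an inserted point -/
def pt {k : ℕ} {β : Type} (ω : Oh r k β) : Fin r → β := fun i => (ω.2.1 i).1.getD (ω.2.1 i).2

/-- the starting points of the paths which cross the edges with an inserted point -/
def ZZ {β : Type} (σ : Fin r → Perm β) (p : Fin r → β) (e : Fin d × ℕ) : Option β :=
  (lb T e).map fun i => (pp σ (T e.1) (rt T e))⁻¹ (p i)

/-- good coupling: nothing happens at `none`, no path crosses two edges with an inserted point,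
and the paths which lead to the pins do not cross such edges -/
structure Good {k : ℕ} {β : Type} (ω : Oh r k β) : Prop where
  o : ∀ i, (ω.2.1 i).1 ≠ none
  c : ∀ m, (ω.2.2 m).1 ≠ none
  s : ∀ j k k', k < k' → k' < (T j).length → ZZ T ω.1 (pt ω) (j, k) ≠ ZZ T ω.1 (pt ω) (j, k')
  q : ∀ m j k k', k' < k → k ≤ (T j).length →
    ZZ T ω.1 (pt ω) (j, k') ≠ some ((pp ω.1 (T j) k)⁻¹ ((sml ω).2 m))

end Pool.Agent.H4.SE
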