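import Pool.Agent.H4.SE.Main
import Pool.Agent.H33.SAE.EM
import Pool.Agent.H33.SAE.EP
import Pool.Agent.H33.SAE.ES
import Pool.Agent.H94.SE4.EC
import Pool.Agent.H94.SE4.EI
import Pool.Agent.H4.SE4.FA
import Pool.Agent.H58.SE4.GK
import Pool.Agent.H58.SE4.GP
import Pool.Agent.H58.SE4.GR
import Pool.Agent.H91.SE4.GW
import Pool.Agent.H67.SE.I1
import Pool.Agent.H89.SE4.IG
import Pool.Agent.H48.SE4.IN
import Pool.Agent.H77.SAE.IO
import Pool.Agent.H21.SE4.IP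
import Pool.Agent.H13.SE4.IR
import Pool.Agent.H21.SE4.IV
import Pool.Agent.H99.SAE.IX
import Pool.Agent.H48.SE4.P1
import Pool.Agent.H47.SE4.P3
import Pool.Agent.H50.SAE.PO
import Pool.Agent.H49.SE4.PS
import Pool.Agent.H91.SE4.PU
import Pool.Agent.H74.SAE.RB
import Pool.Agent.H47.SE4.RE
import Pool.Agent.H85.SE4.RI
import Pool.Agent.H67.SE.RM
import Pool.Agent.H85.SE4.RS
import Pool.Agent.H67.SE.RT
import Pool.Agent.H51.SE4.RU
import Pool.Agent.H47.SE4.RX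
import Pool.Agent.H47.SE4.IL
import Pool.Agent.H74.SAE.WA
import Pool.Agent.H4.SE4.CR
import Pool.Agent.H69.SE4.ER
import Pool.Agent.H42.SAE.IB
import Pool.Agent.H54.SE.ID
import Pool.Agent.H86.SE4.IS
import Pool.Agent.H69.SE4.P2
import Pool.Agent.H69.SE4.PR
import Pool.Agent.H4.SE4.WL

/-!
# Tuples of words in symmetric groups (MP_45b854_al): instantiation of the modules
-/

set_option autoImplicit false

namespace Pool.Agent.H4.SE.Final

open Pool.Agent.H4.SE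

/-- a tuple of words which is contained in no subgroup of smaller rank is simultaneously
asymptotically equidistributed -/
theorem full {r d : ℕ} (w : Fin d → FreeGroup (Fin r))
    (h : ∀ K : Subgroup (FreeGroup (Fin r)), (∀ j, w j ∈ K) → ∀ m : ℕ,
      Nonempty (FreeGroup (Fin m) ≃* K) → d ≤ m) : Pool.Agent.H11.SAE.IsSAE w := by
  have hEM : T_EM := Pool.Agent.H33.SAE.pf_EM
  have hEP : T_EP := Pool.Agent.H33.SAE.pf_EP
  have hES : T_ES := Pool.Agent.H33.SAE.pf_ES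
  have hEC : T_EC := Pool.Agent.H94.SE4.EC.pf_EC hEM hES
  have hEI : T_EI := Pool.Agent.H94.SE4.EI.pf_EI
  have hER : T_ER := Pool.Agent.H69.SE4.pf_ER hEC
  have hPO : T_PO := Pool.Agent.H50.SAE.PO.pf_PO
  have hPU : T_PU := Pool.Agent.H91.SE4.PUm.pf_PU
  have hPR : T_PR := Pool.Agent.H69.SE4.pf_PR hPU
  have hPS : T_PS := Pool.Agent.H49.SE4.pf_PS hPO hPR
  have hGP : T_GP := Pool.Agent.H58.SE4.pf_GP
  have hGW : T_GW := Pool.Agent.H91.SE4.GWm.pf_GW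
  have hGK : T_GK := Pool.Agent.H58.SE4.pf_GK hGP hGW
  have hGR : T_GR := Pool.Agent.H58.SE4.pf_GR
  have hWA : T_WA := Pool.Agent.H74.SAE.WA.pf_WA
  have hWL : T_WL := Pool.Agent.H4.SE4.WL.pf_WL hWA
  have hRB : T_RB := Pool.Agent.H74.SAE.RB.pf_RB hEM hES hEP
  have hRS : T_RS := Pool.Agent.H85.SE4RS.pf_RS hEM hEP hEI
  have hRI : T_RI := Pool.Agent.H85.SE4RI.pf_RI hEM hEP
  have hRX : T_RX := Pool.Agent.H47.SE4.pf_RX
  have hRT : T_RT := Pool.Agent.H67.SE.pf_RT hPS hGK hRB hRS hRI hRX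
  have hRM : T_RM := Pool.Agent.H67.SE.pf_RM hEM hES hEP
  have hRU : T_RU := Pool.Agent.H51.SE4.pf_RU hEM hES hEP hEC hRB hRS
  have hRE : T_RE := Pool.Agent.H47.SE4.pf_RE hEM hEP
  have hI1 : T_I1 := Pool.Agent.H67.SE.pf_I1
  have hIO : T_IO := Pool.Agent.H77.SAE.pf_IO hI1
  have hIG : T_IG := Pool.Agent.H89.SE4.IG.pf_IG hI1 hIO
  have hID : T_ID := Pool.Agent.H54.SE.ID.pf_ID hIO hIG
  have hIX : T_IX := Pool.Agent.H99.SAE.pf_IX hIO
  have hP1 : T_P1 := Pool.Agent.H48.SE4.P1.pf_P1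
  have hP2 : T_P2 := Pool.Agent.H69.SE4.pf_P2 hWA
  have hP3 : T_P3 := Pool.Agent.H47.SE4.pf_P3 hWA
  have hIP : T_IP := Pool.Agent.H21.SE4IP.pf_IP hP1 hP2 hP3
  have hIN : T_IN := Pool.Agent.H48.SE4.IN.pf_IN hEM hEC hER hID hIX hIP
  have hIL : T_IL := Pool.Agent.H47.SE4IL.pf_IL hEM hES hEP hRM
  have hIV : T_IV := Pool.Agent.H21.SE4IV.pf_IV hEM hEP hEI
  have hIR : T_IR := Pool.Agent.H13.SE4.pf_IR hEP Pool.Agent.H42.SAE.pf_IB
    Pool.Agent.H86.SE4.IS.pf_IS hIN hIL hIV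
  have hFA : T_FA := Pool.Agent.H4.SE4.FA.pf_FA
  have hCR : T_CR := Pool.Agent.H4.SE4.CR.pf_CR
  exact main hRT hRM hRU hRE hIR hFA hWL hGR hCR w h

end Pool.Agent.H4.SE.Final
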