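import Pool.Agent.H4.SE.Targets

/-!
# Tuples of words in symmetric groups (MP_45b854_al): assembly
-/

set_option autoImplicit false

open Finset Equiv
open scoped Classical

namespace Pool.Agent.H4.SE

open Pool.Agent.H11.SAE (lp act verts wordMap IsSAE)

/-- the entropy of the word map is as large as the ranks of the overgroups allow -/
theorem main_ent (hRT : T_RT) (hRM : T_RM) (hRU : T_RU) (hRE : T_RE) (hIR : T_IR) (hFA : T_FA)
    (hWL : T_WL) {r d : ℕ} (w : Fin d → FreeGroup (Fin r)) (κ : ℕ)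
    (hκ : ∀ S : Finset (FreeGroup (Fin r)),
      (∀ j, w j ∈ Subgroup.closure (S : Set (FreeGroup (Fin r)))) → κ ≤ S.card)
    (η : ℝ) (hη : 0 < η) : ∀ᶠ n : ℕ in Filter.atTop, κ * Real.log (n.factorial) - η * n ≤
      ent (fun σ : Fin r → Perm (Fin n) => wordMap w n σ) := by
  set T : Fin d → List (Fin r × Bool) := fun j => (w j).toWord.reverse with hT
  have hred : ∀ j, FreeGroup.IsReduced (T j).reverse := fun j => by
    rw [hT, List.reverse_reverse]
    exact FreeGroup.isReduced_toWord
  have hmk : ∀ j, FreeGroup.mk (T j).reverse = w j := fun j => by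
    rw [hT, List.reverse_reverse]
    exact FreeGroup.mk_toWord
  have hκ' : ∀ S : Finset (FreeGroup (Fin r)),
      (∀ j, FreeGroup.mk (T j).reverse ∈ Subgroup.closure (S : Set (FreeGroup (Fin r)))) →
      κ ≤ S.card := fun S hS => hκ S fun j => by rw [← hmk j]; exact hS j
  obtain ⟨C1, hC1, h1⟩ := hIR r d T hred
  obtain ⟨C2, hC2, h2⟩ := hRU r d T
  have hW : ∀ n : ℕ, ent (fun σ : Fin r → Perm (Fin n) => W T σ) =
      ent (fun σ : Fin r → Perm (Fin n) => wordMap w n σ) := fun n => by
    congr 1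
    funext σ j
    exact hWL r n σ (w j)
  have key := hFA r κ (C1 + C2) (fun k N => AA T k (Fin N)) (fun k N => SS T k (Fin N))
    (fun N => ent (fun σ : Fin r → Perm (Fin N) => wordMap w N σ)) (by positivity) ?_ ?_ η hη
  · exact key
  · intro k N hN
    haveI : Nonempty (Fin N) := ⟨⟨0, hN⟩⟩
    haveI : Nonempty (Fin (N + 1)) := ⟨⟨0, N.succ_pos⟩⟩
    have e : Option (Fin N) ≃ Fin (N + 1) := Fintype.equivOfCardEq (by simp)
    obtain ⟨a1, a2, a3⟩ := hRE r d T k (Option (Fin N)) (Fin (N + 1)) e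
    have b1 := h1 k (Fin N)
    have b2 := hRT r d T κ hκ' k (Fin (N + 1))
    rw [a1, a2] at b1
    simp only [Fintype.card_fin] at b1 b2
    have hN0 : (0 : ℝ) < N := by exact_mod_cast hN
    have hE : 0 ≤ (((k : ℝ) + 1) ^ 2 * Real.log (N + 2) / N + Real.sqrt (((k : ℝ) + 1) / N)) := by
      have : 0 ≤ Real.log ((N : ℝ) + 2) := Real.log_nonneg (by linarith)
      positivity
    have h3 : C1 * (((k : ℝ) + 1) ^ 2 * Real.log (N + 2) / N + Real.sqrt (((k : ℝ) + 1) / N)) ≤
        (C1 + C2) * (((k : ℝ) + 1) ^ 2 * Real.log (N + 2) / N +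
          Real.sqrt (((k : ℝ) + 1) / N)) := by
      apply mul_le_mul_of_nonneg_right _ hE
      linarith
    push_cast at b2
    have h4 : (κ : ℝ) * Real.log (N + 1) =
        ((κ : ℝ) - 1) * Real.log (N + 1) + Real.log (N + 1) := by ring
    linarith
  · intro k N hN
    haveI : Nonempty (Fin N) := ⟨⟨0, hN⟩⟩
    obtain ⟨b1, b2, b3, b4⟩ := h2 k (Fin N)
    simp only [Fintype.card_fin] at b2 b4
    have hlog : 0 ≤ Real.log (N : ℝ) := Real.log_nonneg (by exact_mod_cast hN)
    refine ⟨b1, b2.trans (mul_le_mul_of_nonneg_right (by linarith) hlog), ?_, b3, ?_⟩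
    · exact Finset.sum_le_sum fun i _ => hRM r d T k (Fin N) _
    · rw [hW] at b4
      refine b4.trans (by
        have : C2 * k * Real.log (N : ℝ) ≤ (C1 + C2) * k * Real.log (N : ℝ) := by
          apply mul_le_mul_of_nonneg_right _ hlog
          apply mul_le_mul_of_nonneg_right _ (Nat.cast_nonneg k)
          linarith
        linarith)

/-- a tuple which is contained in no subgroup of smaller rank is simultaneously asymptotically
equidistributed -/
theorem main (hRT : T_RT) (hRM : T_RM) (hRU : T_RU) (hRE : T_RE) (hIR : T_IR) (hFA : T_FA)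
    (hWL : T_WL) (hGR : T_GR) (hCR : T_CR) {r d : ℕ} (w : Fin d → FreeGroup (Fin r))
    (h : ∀ K : Subgroup (FreeGroup (Fin r)), (∀ j, w j ∈ K) → ∀ m : ℕ,
      Nonempty (FreeGroup (Fin m) ≃* K) → d ≤ m) : IsSAE w := by
  have hκ : ∀ S : Finset (FreeGroup (Fin r)),
      (∀ j, w j ∈ Subgroup.closure (S : Set (FreeGroup (Fin r)))) → d ≤ S.card := by
    intro S hS
    obtain ⟨m, hm, e⟩ := hGR r S
    exact (h _ hS m e).trans hm
  have hdr : d ≤ r := by
    have h1 := hκ (univ.image FreeGroup.of) (fun j => by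
      rw [Finset.coe_image, Finset.coe_univ, Set.image_univ, FreeGroup.closure_range_of]
      exact Subgroup.mem_top _)
    exact h1.trans (card_image_le.trans (by simp))
  refine hCR r d hdr w fun η hη => ?_
  filter_upwards [main_ent hRT hRM hRU hRE hIR hFA hWL w d hκ η hη] with n hn
  rw [Fintype.card_fun, Fintype.card_perm, Fintype.card_fin, Fintype.card_fin]
  push_cast
  rw [Real.log_pow]
  exact hn

end Pool.Agent.H4.SE
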