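import Pool.Agent.H4.SE.Defs
import Pool.Agent.H11.SAE.Defs

/-!
# Tuples of words in symmetric groups (MP_45b854_al): targets
-/

set_option autoImplicit false

open Finset Equiv
open scoped Classical

namespace Pool.Agent.H4.SE

open Pool.Agent.H11.SAE (lp act verts)

/-! ## E. Entropy -/

/-- monotonicity -/
def T_EM : Prop := ∀ (Ω α α' : Type) [Fintype Ω] (f : Ω → α) (g : Ω → α'),
  (∀ x y, f x = f y → g x = g y) → ent g ≤ ent f

/-- submodularity -/
def T_ES : Prop := ∀ (Ω α β γ : Type) [Fintype Ω] (f : Ω → α) (g : Ω → β) (h : Ω → γ),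
  ent (fun x => (f x, g x, h x)) + ent h ≤ ent (fun x => (f x, h x)) + ent (fun x => (g x, h x))

/-- maps with fibres of constant size -/
def T_EP : Prop := ∀ (Ω Ω' α : Type) [Fintype Ω] [Fintype Ω'] (π : Ω' → Ω) (c : ℕ), 0 < c →
  (∀ x, (univ.filter fun y => π y = x).card = c) → ∀ f : Ω → α, ent (fun y => f (π y)) = ent f

/-- slices -/
def T_EI : Prop := ∀ (Ω Ω₂ α : Type) [Fintype Ω] [Fintype Ω₂] [Nonempty Ω] [Nonempty Ω₂]
  (f : Ω → Ω₂ → α), ent (fun x : Ω × Ω₂ => (f x.1 x.2, x.2)) =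
    Real.log (Fintype.card Ω₂) + (∑ b, ent (fun x => f x b)) / Fintype.card Ω₂

/-- bounds -/
def T_EC : Prop := ∀ (Ω α γ : Type) [Fintype Ω] [Fintype γ] [Nonempty Ω] (f : Ω → α) (g : Ω → γ),
  0 ≤ ent f ∧ ent g ≤ Real.log (Fintype.card γ) ∧ ent (fun x => (f x, g x)) ≤ ent f + ent g

/-- a function which is rarely different from `none` -/
def T_ER : Prop := ∀ (Ω γ : Type) [Fintype Ω] [Fintype γ] [Nonempty Ω] (B : Ω → Option γ) (p : ℝ),
  ((univ.filter fun x => B x ≠ none).card : ℝ) ≤ p * Fintype.card Ω →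
  ent B ≤ p * Real.log (Fintype.card γ + 1) + 2 * Real.sqrt p

/-! ## P. Partitions -/

/-- optimal partitions exist -/
def T_PO : Prop := ∀ (α : Type) (ρ : Finset α → ℝ) (l : ℝ) (A : Finset α), ∃ P, IsOpt1 ρ l A P

/-- uncrossing with a family of disjoint sets -/
def T_PU : Prop := ∀ (α : Type) [DecidableEq α] (ρ : Finset α → ℝ) (V : Finset α),
  (∀ A B, A ⊆ V → B ⊆ V → ρ (A ∪ B) + ρ (A ∩ B) ≤ ρ A + ρ B) →
  ∀ S : Finset (Finset α), (∀ X ∈ S, X ⊆ V) → (∀ X ∈ S, ∀ Y ∈ S, X ≠ Y → Disjoint X Y) →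
  ∀ X, X ⊆ V → ρ (X ∪ S.biUnion id) + ∑ Q ∈ S, ρ (X ∩ Q) ≤ ρ X + ∑ Q ∈ S, ρ Q

/-- the image of a block of an optimal partition is contained in a block -/
def T_PR : Prop := ∀ (α β : Type) [DecidableEq α] [DecidableEq β] (ρ : Finset α → ℝ) (l : ℝ)
  (V : Finset α) (E : Finset β) (φ : β → α),
  (∀ A B, A ⊆ V → B ⊆ V → ρ (A ∪ B) + ρ (A ∩ B) ≤ ρ A + ρ B) → (∀ e ∈ E, φ e ∈ V) →
  ∀ (Q : Finset (Finset α)) (P : Finset (Finset β)), IsOpt1 ρ l V Q →
  IsOpt (fun B => ρ (B.image φ)) l E P → ∀ B ∈ P, ∃ X ∈ Q, B.image φ ⊆ X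

/-- the star inequality -/
def T_PS : Prop := ∀ (α β : Type) [DecidableEq α] [DecidableEq β] (r : ℕ) (V : Finset α)
  (E : Fin r → Finset β) (tl hd : β → α) (ρ : Finset α → ℝ) (L : ℝ) (κ : ℕ), V.Nonempty →
  (∀ i, ∀ e ∈ E i, tl e ∈ V ∧ hd e ∈ V) → 0 ≤ L → ρ ∅ = 0 →
  (∀ A B, A ⊆ B → B ⊆ V → ρ A ≤ ρ B) →
  (∀ A B, A ⊆ V → B ⊆ V → ρ (A ∪ B) + ρ (A ∩ B) ≤ ρ A + ρ B) → (∀ a ∈ V, ρ {a} = L) →
  (∀ i, ∀ B, B ⊆ E i → ρ (B.image tl) = ρ (B.image hd)) →
  (∀ (Q : Finset (Finset α)) (P : Fin r → Finset (Finset β)), IsPart V Q →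
    (∀ i, IsPart (E i) (P i)) →
    (∀ i, ∀ B ∈ P i, (∃ X ∈ Q, B.image tl ⊆ X) ∧ ∃ X ∈ Q, B.image hd ⊆ X) →
    κ + Q.card ≤ (∑ i, (P i).card) + 1) →
  ((κ : ℝ) - 1) * L + ρ V ≤ ∑ i, ρ ((E i).image tl)

/-! ## G. Graphs and groups -/

/-- potentials on a connected graph with edges labelled in a group -/
def T_GP : Prop := ∀ (α β G : Type) [Fintype α] [Fintype β] [DecidableEq α] [DecidableEq β]
  [Group G] (tl hd : β → α) (g : β → G) (b : α),
  (∀ a, Relation.ReflTransGen (fun x y => ∃ e, (tl e = x ∧ hd e = y) ∨ (tl e = y ∧ hd e = x)) b a) →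
  ∃ (φ : α → G) (S : Finset G), φ b = 1 ∧ S.card + Fintype.card α ≤ Fintype.card β + 1 ∧
    ∀ e, (φ (hd e))⁻¹ * g e * φ (tl e) ∈ Subgroup.closure (S : Set G)

/-- the word is a product of letters -/
def T_GW : Prop := ∀ (r : ℕ) (T : List (Fin r × Bool)) (K : Subgroup (FreeGroup (Fin r)))
  (φ : ℕ → FreeGroup (Fin r)), φ 0 = 1 → φ T.length = 1 →
  (∀ (k : ℕ) (x : Fin r × Bool), T[k]? = some x →
    (φ (k + 1))⁻¹ * FreeGroup.mk [x] * φ k ∈ K) → FreeGroup.mk T.reverse ∈ K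

/-- the rank condition for partitions of the wedge of circles -/
def T_GK : Prop := ∀ (r d : ℕ) (T : Fin d → List (Fin r × Bool)) (κ : ℕ),
  (∀ S : Finset (FreeGroup (Fin r)),
    (∀ j, FreeGroup.mk (T j).reverse ∈ Subgroup.closure (S : Set (FreeGroup (Fin r)))) →
      κ ≤ S.card) →
  ∀ (Q : Finset (Finset (Option (Fin d × ℕ)))) (P : Fin r → Finset (Finset (Fin d × ℕ))),
  IsPart (VV T) Q → (∀ i, IsPart (Ei T i) (P i)) →
  (∀ i, ∀ B ∈ P i, (∃ X ∈ Q, B.image (tl T) ⊆ X) ∧ ∃ X ∈ Q, B.image (hd T) ⊆ X) →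
  κ + Q.card ≤ (∑ i, (P i).card) + 1

/-- rank of finitely generated subgroups of free groups -/
def T_GR : Prop := ∀ (r : ℕ) (S : Finset (FreeGroup (Fin r))), ∃ m ≤ S.card,
  Nonempty (FreeGroup (Fin m) ≃* Subgroup.closure (S : Set (FreeGroup (Fin r))))

/-! ## R. The function rho -/

/-- the permutations `pp` in terms of `act` -/
def T_WA : Prop := ∀ (r : ℕ) (β : Type) [Fintype β] [DecidableEq β] (σ : Fin r → Perm β)
  (T : List (Fin r × Bool)) (k : ℕ) (v : β), pp σ T k v = act σ (T.take k).reverse v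

/-- the word map in terms of the free group -/
def T_WL : Prop := ∀ (r n : ℕ) (σ : Fin r → Perm (Fin n)) (w : FreeGroup (Fin r)),
  pp σ w.toWord.reverse w.toWord.reverse.length = FreeGroup.lift σ w

/-- a submodular function -/
def T_RB : Prop := ∀ (r d : ℕ) (T : Fin d → List (Fin r × Bool)) (k : ℕ) (β : Type) [Fintype β]
  [DecidableEq β] [Nonempty β], rho T k β ∅ = 0 ∧ (∀ A B, A ⊆ B → rho T k β A ≤ rho T k β B) ∧
    ∀ A B, rho T k β (A ∪ B) + rho T k β (A ∩ B) ≤ rho T k β A + rho T k β B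

/-- one vertex -/
def T_RS : Prop := ∀ (r d : ℕ) (T : Fin d → List (Fin r × Bool)) (k : ℕ) (β : Type) [Fintype β]
  [DecidableEq β] [Nonempty β] (a : Option (Fin d × ℕ)),
  rho T k β {a} = Real.log (Fintype.card β)

/-- tails and heads -/
def T_RI : Prop := ∀ (r d : ℕ) (T : Fin d → List (Fin r × Bool)) (k : ℕ) (β : Type) [Fintype β]
  [DecidableEq β] [Nonempty β] (i : Fin r) (B : Finset (Fin d × ℕ)), B ⊆ Ei T i →
  rho T k β (B.image (tl T)) = rho T k β (B.image (hd T))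

/-- the edges of the wedge -/
def T_RX : Prop := ∀ (r d : ℕ) (T : Fin d → List (Fin r × Bool)) (i : Fin r), ∀ e ∈ Ei T i,
  tl T e ∈ VV T ∧ hd T e ∈ VV T

/-- star inequality for rho -/
def T_RT : Prop := ∀ (r d : ℕ) (T : Fin d → List (Fin r × Bool)) (κ : ℕ),
  (∀ S : Finset (FreeGroup (Fin r)),
    (∀ j, FreeGroup.mk (T j).reverse ∈ Subgroup.closure (S : Set (FreeGroup (Fin r)))) →
      κ ≤ S.card) →
  ∀ (k : ℕ) (β : Type) [Fintype β] [DecidableEq β] [Nonempty β],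
    ((κ : ℝ) - 1) * Real.log (Fintype.card β) + rho T k β (VV T) ≤ SS T k β

/-- more pins -/
def T_RM : Prop := ∀ (r d : ℕ) (T : Fin d → List (Fin r × Bool)) (k : ℕ) (β : Type) [Fintype β]
  [DecidableEq β] [Nonempty β] (A : Finset (Option (Fin d × ℕ))),
  rho T (k + 1) β A ≤ rho T k β A

/-- trivial bounds -/
def T_RU : Prop := ∀ (r d : ℕ) (T : Fin d → List (Fin r × Bool)), ∃ C : ℝ, 0 ≤ C ∧
  ∀ (k : ℕ) (β : Type) [Fintype β] [DecidableEq β] [Nonempty β],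
    0 ≤ SS T k β ∧ SS T k β ≤ C * Real.log (Fintype.card β) ∧ 0 ≤ AA T k β ∧
    AA T k β ≤ ent (fun σ : Fin r → Perm β => W T σ) + C * k * Real.log (Fintype.card β)

/-- only the number of points matters -/
def T_RE : Prop := ∀ (r d : ℕ) (T : Fin d → List (Fin r × Bool)) (k : ℕ) (β γ : Type) [Fintype β]
  [DecidableEq β] [Fintype γ] [DecidableEq γ], β ≃ γ →
    AA T k β = AA T k γ ∧ (∀ A, rho T k β A = rho T k γ A) ∧ SS T k β = SS T k γ

/-! ## I. Insertion -/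

/-- the larger system is uniformly distributed -/
def T_IB : Prop := ∀ (r k : ℕ) (β : Type) [Fintype β] [DecidableEq β] [Nonempty β],
  ∃ c : ℕ, 0 < c ∧ ∀ x : Om r k (Option β), (univ.filter fun ω : Oh r k β => big ω = x).card = c

/-- the smaller system is uniformly distributed -/
def T_IS : Prop := ∀ (r k : ℕ) (β : Type) [Fintype β] [DecidableEq β] [Nonempty β],
  ∃ c : ℕ, 0 < c ∧ ∀ x : Om r k β × (Fin r → β),
    (univ.filter fun ω : Oh r k β => (sml ω, pt ω) = x).card = c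

/-- one letter -/
def T_I1 : Prop := ∀ (r : ℕ) (β : Type) [DecidableEq β] (σ : Fin r → Perm β)
  (o : Fin r → Option β) (i : Fin r),
  (∀ s, o i ≠ some s → ins σ o i (some s) = some (σ i s)) ∧
  (∀ s, o i = some s → ins σ o i (some s) = none ∧ ins σ o i none = some (σ i s)) ∧
  (∀ s, o i ≠ some s → (ins σ o i)⁻¹ (some (σ i s)) = some s) ∧
  (∀ s, o i = some s → (ins σ o i)⁻¹ (some (σ i s)) = none ∧ (ins σ o i)⁻¹ none = some s)

/-- paths which cross no edge with an inserted point -/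
def T_IO : Prop := ∀ (r d : ℕ) (T : Fin d → List (Fin r × Bool)) (β : Type)
  [DecidableEq β] (σ : Fin r → Perm β) (o : Fin r → Option β) (p : Fin r → β),
  (∀ i s, o i = some s → p i = s) → ∀ (j : Fin d) (s : β) (m : ℕ), m ≤ (T j).length →
  (∀ k < m, ZZ T σ p (j, k) ≠ some s) →
  ∀ k ≤ m, pp (ins σ o) (T j) k (some s) = some (pp σ (T j) k s)

/-- paths which cross such edges, good coupling -/
def T_IG : Prop := ∀ (r d : ℕ) (T : Fin d → List (Fin r × Bool)) (β : Type)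
  [DecidableEq β] (σ : Fin r → Perm β) (o : Fin r → Option β) (p : Fin r → β),
  (∀ i, o i = some (p i)) → ∀ (j : Fin d),
  (∀ k k', k < k' → k' < (T j).length → ZZ T σ p (j, k) ≠ ZZ T σ p (j, k')) →
  (∀ k s, k < (T j).length → ZZ T σ p (j, k) = some s →
    pp (ins σ o) (T j) (k + 1) (some s) = none) ∧
  (∀ s, ZZ T σ p (j, 0) = some s → ∀ k, 1 ≤ k → k ≤ (T j).length →
    pp (ins σ o) (T j) k none = some (pp σ (T j) k s)) ∧
  (∀ k s s', k + 1 < (T j).length → ZZ T σ p (j, k) = some s → ZZ T σ p (j, k + 1) = some s' →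
    ∀ k', k + 2 ≤ k' → k' ≤ (T j).length →
      pp (ins σ o) (T j) k' (some s) = some (pp σ (T j) k' s'))

/-- the larger system determines the smaller one, good coupling -/
def T_ID : Prop := ∀ (r d : ℕ) (T : Fin d → List (Fin r × Bool)) (k : ℕ) (β : Type)
  [DecidableEq β] (ω ω' : Oh r k β), Good T ω → Good T ω' →
  WQ T (big ω) = WQ T (big ω') → pat T (big ω).1 none = pat T (big ω').1 none →
  WQ T (sml ω) = WQ T (sml ω') ∧ ZZ T ω.1 (pt ω) = ZZ T ω'.1 (pt ω')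

/-- the larger system and the list of the changes determine the smaller one -/
def T_IX : Prop := ∀ (r d : ℕ) (T : Fin d → List (Fin r × Bool)) (k : ℕ) (β : Type)
  [DecidableEq β] (ω ω' : Oh r k β), W T (big ω).1 = W T (big ω').1 →
  (∀ j l, l < (T j).length → ZZ T ω.1 (pt ω) (j, l) = ZZ T ω'.1 (pt ω') (j, l) ∧
    (ZZ T ω.1 (pt ω) (j, l)).map (W T ω.1 j) = (ZZ T ω'.1 (pt ω') (j, l)).map (W T ω'.1 j)) →
  (∀ m j l, l ≤ (T j).length → pat T (sml ω).1 ((sml ω).2 m) j l =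
    pat T (sml ω').1 ((sml ω').2 m) j l) →
  WQ T (sml ω) = WQ T (sml ω') ∧ ZZ T ω.1 (pt ω) = ZZ T ω'.1 (pt ω')

/-- one coordinate of the coupling -/
def T_P1 : Prop := ∀ (r k : ℕ) (β : Type) [Fintype β] [DecidableEq β] [Nonempty β],
  (∀ (i : Fin r) (F : Oh r k β → β), (∀ ω x, F (ω.1, Function.update ω.2.1 i x, ω.2.2) = F ω) →
    (univ.filter fun ω : Oh r k β => pt ω i = F ω).card * Fintype.card β =
      Fintype.card (Oh r k β)) ∧
  (∀ i : Fin r, (univ.filter fun ω : Oh r k β => (ω.2.1 i).1 = none).card *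
    (Fintype.card β + 1) = Fintype.card (Oh r k β)) ∧
  ∀ m : Fin k, (univ.filter fun ω : Oh r k β => (ω.2.2 m).1 = none).card *
    (Fintype.card β + 1) = Fintype.card (Oh r k β)

/-- paths through the inserted points are usually simple -/
def T_P2 : Prop := ∀ (r d : ℕ) (T : Fin d → List (Fin r × Bool)) (k : ℕ) (β : Type) [Fintype β]
  [DecidableEq β] [Nonempty β] (j : Fin d) (l : ℕ), FreeGroup.IsReduced (T j).reverse →
  (univ.filter fun ω : Oh r k β => ∃ s, ZZ T ω.1 (pt ω) (j, l) = some s ∧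
    ¬ (verts ω.1 (T j).reverse s).Nodup).card * (Fintype.card β - (T j).length) ≤
    Fintype.card (Oh r k β) * (T j).length ^ 2

/-- a simple path crosses an edge at most once -/
def T_P3 : Prop := ∀ (r d : ℕ) (T : Fin d → List (Fin r × Bool)) (β : Type) [Fintype β]
  [DecidableEq β] (σ : Fin r → Perm β) (p : Fin r → β) (j : Fin d) (k k' : ℕ) (s : β),
  FreeGroup.IsReduced (T j).reverse → k < k' → k' < (T j).length →
  lb T (j, k) = lb T (j, k') → ZZ T σ p (j, k) = some s → ZZ T σ p (j, k') = some s →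
  ¬ (verts σ (T j).reverse s).Nodup

/-- the coupling is good with large probability -/
def T_IP : Prop := ∀ (r d : ℕ) (T : Fin d → List (Fin r × Bool)),
  (∀ j, FreeGroup.IsReduced (T j).reverse) → ∃ C : ℝ, 0 ≤ C ∧
  ∀ (k : ℕ) (β : Type) [Fintype β] [DecidableEq β] [Nonempty β],
    ((univ.filter fun ω : Oh r k β => ¬ Good T ω).card : ℝ) * Fintype.card β ≤
      C * (k + 1) * Fintype.card (Oh r k β)

/-- the smaller system has not much more entropy than the larger one -/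
def T_IN : Prop := ∀ (r d : ℕ) (T : Fin d → List (Fin r × Bool)),
  (∀ j, FreeGroup.IsReduced (T j).reverse) → ∃ C : ℝ, 0 ≤ C ∧
  ∀ (k : ℕ) (β : Type) [Fintype β] [DecidableEq β] [Nonempty β],
    ent (fun ω : Oh r k β => (WQ T (sml ω), ZZ T ω.1 (pt ω))) ≤
    ent (fun ω : Oh r k β => (WQ T (big ω), pat T (big ω).1 none)) +
      C * ((k + 1) ^ 2 * Real.log (Fintype.card β + 2) / Fintype.card β +
        Real.sqrt ((k + 1) / Fintype.card β))

/-- the edges of one label are conditionally almost independent of the others: lower bound -/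
def T_IL : Prop := ∀ (r d : ℕ) (T : Fin d → List (Fin r × Bool)) (k : ℕ) (β : Type) [Fintype β]
  [DecidableEq β] [Nonempty β],
  AA T k β + SS T (k + r) β ≤
    ent (fun x : Om r k β × (Fin r → β) => (WQ T x.1, ZZ T x.1.1 x.2))

/-- all positions at a fixed point -/
def T_IV : Prop := ∀ (r d : ℕ) (T : Fin d → List (Fin r × Bool)) (k : ℕ) (β : Type) [Fintype β]
  [DecidableEq β] [Nonempty β] (a : β),
  ent (fun ω : Om r k β => (WQ T ω, pat T ω.1 a)) =
    rho T k β (VV T) - Real.log (Fintype.card β) + AA T k β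

/-- the recursion -/
def T_IR : Prop := ∀ (r d : ℕ) (T : Fin d → List (Fin r × Bool)),
  (∀ j, FreeGroup.IsReduced (T j).reverse) → ∃ C : ℝ, 0 ≤ C ∧
  ∀ (k : ℕ) (β : Type) [Fintype β] [DecidableEq β] [Nonempty β],
    AA T k β + SS T (k + r) β + Real.log (Fintype.card β + 1) ≤
      AA T k (Option β) + rho T k (Option β) (VV T) +
      C * ((k + 1) ^ 2 * Real.log (Fintype.card β + 2) / Fintype.card β +
        Real.sqrt ((k + 1) / Fintype.card β))

/-! ## F. Conclusion -/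

/-- summation of the recursion -/
def T_FA : Prop := ∀ (r κ : ℕ) (C : ℝ) (a s : ℕ → ℕ → ℝ) (H : ℕ → ℝ), 0 ≤ C →
  (∀ k N, 1 ≤ N → a k N + s (k + r) N + κ * Real.log (N + 1) ≤ a k (N + 1) + s k (N + 1) +
    C * (((k : ℝ) + 1) ^ 2 * Real.log (N + 2) / N + Real.sqrt (((k : ℝ) + 1) / N))) →
  (∀ k N, 1 ≤ N → 0 ≤ s k N ∧ s k N ≤ C * Real.log N ∧ s (k + 1) N ≤ s k N ∧ 0 ≤ a k N ∧
    a k N ≤ H N + C * k * Real.log N) →
  ∀ η : ℝ, 0 < η → ∀ᶠ N : ℕ in Filter.atTop, κ * Real.log (N.factorial) - η * N ≤ H N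

/-- the entropy criterion -/
def T_CR : Prop := ∀ (r d : ℕ), d ≤ r → ∀ (w : Fin d → FreeGroup (Fin r)),
  (∀ η : ℝ, 0 < η → ∀ᶠ n : ℕ in Filter.atTop,
    Real.log (Fintype.card (Fin d → Perm (Fin n))) - η * n ≤
      ent (fun σ : Fin r → Perm (Fin n) => Pool.Agent.H11.SAE.wordMap w n σ)) →
  Pool.Agent.H11.SAE.IsSAE w

end Pool.Agent.H4.SE
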